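import Pool.Agent.W78.EG.Defs

/-! # EG-BTX: the bilinear estimate for a bounded real function `A`, for class number one -/

set_option autoImplicit false

namespace Pool.Agent.W179.EG

open Finset Filter
open Pool.Agent.W78.GA
open Pool.Agent.W78.EC (psi)
open Pool.Agent.W78.EG

variable {t c : ℤ} {f : ℕ} {χ : DirichletCharacter ℂ f}

theorem hDf (hF : Fd t c f χ) : t ^ 2 < 4 * c := by
  have h1 := hF.disc
  have h2 := hF.three
  omega

theorem nm_eqR (hD : t ^ 2 < 4 * c) (z : Qd t c) :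
    (nm z : ℝ) = (z.re : ℝ) ^ 2 + t * z.re * z.im + c * (z.im : ℝ) ^ 2 := by
  have := nm_cast hD z
  exact_mod_cast this

theorem ball_card (hF : Fd t c f χ) {Y : ℝ} (hY : 1 ≤ Y) : ((ball t c Y).card : ℝ) ≤ 16 * Y := by
  classical
  have hD := hDf hF
  set N : ℕ := ⌊3 / 2 * Real.sqrt Y⌋₊ with hN
  have hsq : Real.sqrt Y * Real.sqrt Y = Y := Real.mul_self_sqrt (by linarith)
  have h1s : 1 ≤ Real.sqrt Y := by
    rw [Real.one_le_sqrt]; exact hY
  have hf3 : (3 : ℝ) ≤ f := by exact_mod_cast hF.three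
  have hdisc : 4 * (c : ℝ) = (t : ℝ) ^ 2 + f := by exact_mod_cast hF.disc
  have ht1 : (t : ℝ) ^ 2 ≤ 1 := by
    rcases hF.tt with h | h <;> rw [h] <;> norm_num
  have hsub : ball t c Y ⊆ ((Icc (-(N : ℤ)) N) ×ˢ (Icc (-(N : ℤ)) N)).image
      (fun p => (⟨p.1, p.2⟩ : Qd t c)) := by
    intro z hz
    rw [mem_ball hD] at hz
    have h2 := hz.2
    rw [nm_eqR hD] at h2
    have key : ∀ x : ℤ, (x : ℝ) ^ 2 ≤ 4 / 3 * Y → -(N : ℤ) ≤ x ∧ x ≤ N := by
      intro x hx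
      have h3 : |(x : ℝ)| ≤ 3 / 2 * Real.sqrt Y := by
        apply abs_le_of_sq_le_sq _ (by positivity)
        nlinarith
      have h4 : x.natAbs ≤ N := by
        rw [hN]
        apply Nat.le_floor
        have h5 : ((x.natAbs : ℕ) : ℝ) = |(x : ℝ)| := by
          rw [Nat.cast_natAbs]; simp
        rw [h5]; exact h3
      omega
    rw [mem_image]
    refine ⟨(z.re, z.im), ?_, rfl⟩
    rw [mem_product, mem_Icc, mem_Icc]
    set x : ℝ := (z.re : ℝ)
    set y : ℝ := (z.im : ℝ)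
    have g1 : (f : ℝ) * y ^ 2 = 4 * (x ^ 2 + t * x * y + c * y ^ 2) - (2 * x + t * y) ^ 2 := by
      have : (f : ℝ) = 4 * c - t ^ 2 := by linarith
      rw [this]; ring
    have g2 : (f : ℝ) * x ^ 2 = 4 * c * (x ^ 2 + t * x * y + c * y ^ 2) - (2 * c * y + t * x) ^ 2 := by
      have : (f : ℝ) = 4 * c - t ^ 2 := by linarith
      rw [this]; ring
    have g3 : y ^ 2 ≤ 4 / 3 * Y := by
      have e1 : 3 * y ^ 2 ≤ f * y ^ 2 := mul_le_mul_of_nonneg_right hf3 (sq_nonneg _)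
      have e2 : 0 ≤ (2 * x + t * y) ^ 2 := sq_nonneg _
      linarith
    have g4 : x ^ 2 ≤ 4 / 3 * Y := by
      have e2 : 0 ≤ (2 * c * y + t * x) ^ 2 := sq_nonneg _
      have e3 : (f : ℝ) * x ^ 2 ≤ 4 * c * Y := by
        have : 4 * (c : ℝ) * (x ^ 2 + t * x * y + c * y ^ 2) ≤ 4 * c * Y :=
          mul_le_mul_of_nonneg_left h2 (by rw [hdisc]; positivity)
        linarith
      have e4 : 4 * (c : ℝ) * Y ≤ (4 / 3 * f) * Y :=
        mul_le_mul_of_nonneg_right (by linarith) (by linarith)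
      have e5 : (f : ℝ) * x ^ 2 ≤ f * (4 / 3 * Y) := by linarith
      exact le_of_mul_le_mul_left e5 (by linarith)
    exact ⟨key _ g4, key _ g3⟩
  have h1 := (card_le_card hsub).trans card_image_le
  rw [card_product, Int.card_Icc] at h1
  have h2 : ((N : ℤ) + 1 - -(N : ℤ)).toNat = 2 * N + 1 := by omega
  rw [h2] at h1
  have h3 : ((ball t c Y).card : ℝ) ≤ (2 * (N : ℝ) + 1) * (2 * (N : ℝ) + 1) := by exact_mod_cast h1
  have h4 : (N : ℝ) ≤ 3 / 2 * Real.sqrt Y := Nat.floor_le (by positivity)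
  have h5 : (0 : ℝ) ≤ N := Nat.cast_nonneg _
  refine h3.trans ?_
  calc (2 * (N : ℝ) + 1) * (2 * (N : ℝ) + 1) ≤ (4 * Real.sqrt Y) * (4 * Real.sqrt Y) := by
        apply mul_le_mul <;> linarith
    _ = 16 * (Real.sqrt Y * Real.sqrt Y) := by ring
    _ = 16 * Y := by rw [hsq]

theorem prim_mul {a d : Qd t c} (ha : prim a) (h : dt a d = 0) : ∃ k : ℤ, d.re = k * a.re ∧
    d.im = k * a.im := by
  have hco : IsCoprime a.re a.im := Int.isCoprime_iff_gcd_eq_one.2 ha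
  obtain ⟨x, y, hxy⟩ := hco
  unfold dt at h
  refine ⟨x * d.re + y * d.im, ?_, ?_⟩
  · have : a.re * d.im = a.im * d.re := by linarith
    calc d.re = (x * a.re + y * a.im) * d.re := by rw [hxy, one_mul]
      _ = x * a.re * d.re + y * (a.im * d.re) := by ring
      _ = x * a.re * d.re + y * (a.re * d.im) := by rw [this]
      _ = _ := by ring
  · have : a.re * d.im = a.im * d.re := by linarith
    calc d.im = (x * a.re + y * a.im) * d.im := by rw [hxy, one_mul]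
      _ = x * (a.re * d.im) + y * a.im * d.im := by ring
      _ = x * (a.im * d.re) + y * a.im * d.im := by rw [this]
      _ = _ := by ring

theorem edge_aux (hD : t ^ 2 < 4 * c) {Y : ℝ} {a b b' : Qd t c} (ha : prim a) (h1 : dt a b = 1) (h2 : dt a b' = 1)
    (hb : (nm b : ℝ) ≤ Y) (hb' : (nm b' : ℝ) ≤ Y) (h3 : Y < (nm (a + b) : ℝ))
    (h4 : Y < (nm (a + b') : ℝ)) : b = b' := by
  have key : ∀ b b' : Qd t c, ∀ k : ℤ, 1 ≤ k → (nm b : ℝ) ≤ Y → (nm b' : ℝ) ≤ Y →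
      Y < (nm (a + b) : ℝ) → b'.re = b.re + k * a.re → b'.im = b.im + k * a.im → False := by
    intro b b' k hk hb hb' h3 e1 e2
    rw [nm_eqR hD] at hb hb' h3
    rw [QuadraticAlgebra.re_add, QuadraticAlgebra.im_add] at h3
    rw [e1, e2] at hb'
    push_cast at hb' h3
    have hk' : (1 : ℝ) ≤ k := by exact_mod_cast hk
    set p : ℝ := (a.re : ℝ)
    set q : ℝ := (a.im : ℝ)
    set x : ℝ := (b.re : ℝ)
    set y : ℝ := (b.im : ℝ)
    set κ : ℝ := (k : ℝ)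
    -- κ f(1) ≤ (κ-1) f(0) + f(κ)
    have hna : 0 ≤ p ^ 2 + t * p * q + c * q ^ 2 := by
      have h := nm_eqR hD a
      rw [← h]; exact Nat.cast_nonneg _
    have h5 : κ * ((p + x) ^ 2 + t * (p + x) * (q + y) + c * (q + y) ^ 2) ≤
        (κ - 1) * (x ^ 2 + t * x * y + c * y ^ 2) +
        ((x + κ * p) ^ 2 + t * (x + κ * p) * (y + κ * q) + c * (y + κ * q) ^ 2) := by
      have : (κ - 1) * (x ^ 2 + t * x * y + c * y ^ 2) +
        ((x + κ * p) ^ 2 + t * (x + κ * p) * (y + κ * q) + c * (y + κ * q) ^ 2) -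
        κ * ((p + x) ^ 2 + t * (p + x) * (q + y) + c * (q + y) ^ 2) =
        κ * (κ - 1) * (p ^ 2 + t * p * q + c * q ^ 2) := by ring
      have h6 : 0 ≤ κ * (κ - 1) * (p ^ 2 + t * p * q + c * q ^ 2) := by
        apply mul_nonneg
        · apply mul_nonneg <;> linarith
        · exact hna
      linarith
    have h6 : (κ - 1) * (x ^ 2 + t * x * y + c * y ^ 2) ≤ (κ - 1) * Y :=
      mul_le_mul_of_nonneg_left hb (by linarith)
    have h7 : κ * Y < κ * ((p + x) ^ 2 + t * (p + x) * (q + y) + c * (q + y) ^ 2) :=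
      mul_lt_mul_of_pos_left h3 (by linarith)
    nlinarith
  have hd : dt a (b' - b) = 0 := by
    have : dt a (b' - b) = dt a b' - dt a b := by
      unfold dt
      rw [QuadraticAlgebra.re_sub, QuadraticAlgebra.im_sub]
      ring
    rw [this, h1, h2]; ring
  obtain ⟨k, hk1, hk2⟩ := prim_mul ha hd
  rw [QuadraticAlgebra.re_sub] at hk1
  rw [QuadraticAlgebra.im_sub] at hk2
  rcases lt_trichotomy k 0 with hk | hk | hk
  · exact (key b' b (-k) (by omega) hb' hb h4 (by linarith) (by linarith)).elim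
  · rw [hk] at hk1 hk2
    apply QuadraticAlgebra.ext <;> linarith
  · exact (key b b' k (by omega) hb hb' h3 (by linarith) (by linarith)).elim

theorem edge_card (hF : Fd t c f χ) {Y : ℝ} (hY : 1 ≤ Y) :
    ((edge t c Y).card : ℝ) ≤ 16 * Y := by
  classical
  have hD := hDf hF
  refine le_trans ?_ (ball_card hF hY)
  have : (edge t c Y).card ≤ (ball t c Y).card := by
    apply card_le_card_of_injOn (fun e => e.1)
    · intro e he
      have he' : e ∈ edge t c Y := he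
      unfold edge at he'
      rw [mem_filter, mem_product] at he'
      have := he'.1.1
      unfold pball at this
      exact (mem_filter.1 this).1
    · intro e he e' he' hee
      have h1 : e ∈ edge t c Y := he
      have h2 : e' ∈ edge t c Y := he'
      unfold edge at h1 h2
      rw [mem_filter, mem_product, mem_pball hD, mem_pball hD] at h1 h2
      obtain ⟨a, b⟩ := e
      obtain ⟨a', b'⟩ := e'
      simp only at hee
      subst hee
      exact Prod.ext rfl (edge_aux hD h1.1.1.1 h1.2.1 h2.2.1 h1.1.2.2 h2.1.2.2 h1.2.2 h2.2.2)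
  exact_mod_cast this

theorem good_card (hF : Fd t c f χ) {K : ℕ} {κ : ℝ} {Q : ℕ} {X : ℝ} (hK : 1 ≤ K) (hQ : 1 ≤ Q)
    (hX : f * (K * Q : ℝ) ≤ X) : ((good t c K κ Q X).card : ℝ) ≤ 16 * (X / (K * Q)) := by
  classical
  have hf3 : (3 : ℝ) ≤ f := by exact_mod_cast hF.three
  have hKQ : (1 : ℝ) ≤ K * Q := by
    have : 1 ≤ K * Q := Nat.mul_pos hK hQ
    exact_mod_cast this
  refine le_trans ?_ (edge_card hF (Y := X / (K * Q)) (by
    rw [le_div_iff₀ (by linarith)]; nlinarith))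
  have : (good t c K κ Q X).card ≤ (edge t c (X / (K * Q))).card := by
    unfold good
    exact card_le_card (filter_subset _ _)
  exact_mod_cast this

theorem cone_total (hF : Fd t c f χ) (h4 : S_DTB t c f) {K : ℕ} {κ : ℝ} {Q : ℕ} {X : ℝ} (hK : 1 ≤ K) (hκ : 0 < κ)
    (hQ : 1 ≤ Q) (hX : f * (K * Q : ℝ) ≤ X) :
    ∑ e ∈ good t c K κ Q X, ((cone X e.1 e.2).card : ℝ) ≤ 64 * (1 / κ + 1) * X := by
  classical
  have hf3 : (3 : ℝ) ≤ f := by exact_mod_cast hF.three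
  have hKQ : (1 : ℝ) ≤ K * Q := by
    have : 1 ≤ K * Q := Nat.mul_pos hK hQ
    exact_mod_cast this
  have h1 : ∑ e ∈ good t c K κ Q X, ((cone X e.1 e.2).card : ℝ) ≤
      ∑ e ∈ good t c K κ Q X, 4 * (K * Q / κ + 1) :=
    sum_le_sum fun e he => (h4 K κ Q X hK hκ hQ hX e he).1
  refine h1.trans ?_
  rw [sum_const, nsmul_eq_mul]
  have h2 := good_card hF (κ := κ) hK hQ hX
  have h3 : (0 : ℝ) ≤ 4 * (K * Q / κ + 1) := by positivity
  refine (mul_le_mul_of_nonneg_right h2 h3).trans ?_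
  have h5 : 16 * (X / (K * Q)) * (4 * (K * Q / κ + 1)) = 64 * X * (1 / κ + 1 / (K * Q)) := by
    field_simp
    ring
  rw [h5]
  have h6 : 1 / (K * Q : ℝ) ≤ 1 := by
    rw [div_le_one (by linarith)]; exact hKQ
  have hX0 : 0 ≤ X := by nlinarith
  calc 64 * X * (1 / κ + 1 / (K * Q)) ≤ 64 * X * (1 / κ + 1) := by
        apply mul_le_mul_of_nonneg_left _ (by linarith)
        linarith
    _ = _ := by ring


theorem psi_nonneg (x : ℝ) : 0 ≤ psi x := sq_nonneg _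

theorem psi_le {x : ℝ} (hx : 0 ≤ x) : psi x ≤ 16 := by
  unfold psi
  have h1 : 0 ≤ max 0 (4 - x) := le_max_left _ _
  have h2 : max 0 (4 - x) ≤ 4 := max_le (by norm_num) (by linarith)
  nlinarith

theorem psi_ge {x : ℝ} (hx : x ≤ 1) : 9 ≤ psi x := by
  unfold psi
  have h2 : 3 ≤ max 0 (4 - x) := le_trans (by linarith) (le_max_right _ _)
  nlinarith

theorem th_nonneg (χ : DirichletCharacter ℂ f) (Q : ℕ) (m : ℤ) : 0 ≤ th χ Q m := by
  unfold th
  split_ifs with h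
  · apply Real.log_nonneg
    have : (1 : ℤ) ≤ m := h.1
    exact_mod_cast this
  · exact le_rfl

theorem th_le (χ : DirichletCharacter ℂ f) (Q : ℕ) (m : ℤ) : th χ Q m ≤ Real.log (2 * Q) * (if m ∈ Ioc (Q : ℤ) (2 * Q) then 1 else 0) := by
  unfold th
  split_ifs with h h1 h1
  · rw [mul_one]
    apply Real.log_le_log
    · have := h.1
      exact_mod_cast this
    · rw [mem_Ioc] at h1
      exact_mod_cast h1.2
  · exfalso
    apply h1
    have h2 := h.2
    unfold PQ at h2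
    rw [mem_filter, mem_Ioc] at h2
    rw [mem_Ioc]
    have := h.1
    omega
  · rw [mul_one]
    rcases Nat.eq_zero_or_pos Q with h0 | h0
    · rw [h0]; simp
    · apply Real.log_nonneg
      have : (1 : ℝ) ≤ Q := by exact_mod_cast h0
      linarith
  · simp

theorem th_le' (χ : DirichletCharacter ℂ f) (Q : ℕ) (m : ℤ) (hQ : 1 ≤ Q) : th χ Q m ≤ Real.log (2 * Q) := by
  have h0 : 0 ≤ Real.log (2 * Q) := by
    apply Real.log_nonneg
    have : (1 : ℝ) ≤ Q := by exact_mod_cast hQ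
    linarith
  refine (th_le χ Q m).trans ?_
  split_ifs
  · rw [mul_one]
  · rw [mul_zero]; exact h0

theorem Gv_symm (χ : DirichletCharacter ℂ f) (Q : ℕ) (X : ℝ) (w₁ w₂ : Qd t c) : Gv χ Q X w₁ w₂ = Gv χ Q X w₂ w₁ := by
  unfold Gv
  exact sum_congr rfl fun v _ => by ring

theorem Gv_nonneg (χ : DirichletCharacter ℂ f) (Q : ℕ) (X : ℝ) (w₁ w₂ : Qd t c) : 0 ≤ Gv χ Q X w₁ w₂ := by
  unfold Gv
  exact sum_nonneg fun v _ => mul_nonneg (mul_nonneg (psi_nonneg _) (th_nonneg _ _ _)) (th_nonneg _ _ _)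

/-- the number of points with determinant in a finite set -/
theorem count_dt {C : ℕ} {X : ℝ} {w : Qd t c} (hC : ∀ m : ℤ,
    ((ball t c (4 * X)).filter (fun z => dt w z = m)).card ≤ C) (S : Finset ℤ) :
    ((ball t c (4 * X)).filter (fun z => dt w z ∈ S)).card ≤ S.card * C := by
  classical
  have h := card_le_mul_card_image_of_maps_to (s := (ball t c (4 * X)).filter (fun z => dt w z ∈ S))
    (t := S) (f := fun z => dt w z) (fun z hz => (mem_filter.1 hz).2) C (fun m hm => by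
      refine le_trans (card_le_card ?_) (hC m)
      intro z hz
      rw [mem_filter, mem_filter] at hz
      rw [mem_filter]
      exact ⟨hz.1.1, hz.2⟩)
  exact h.trans_eq (mul_comm _ _)

theorem dt_anti (v w : Qd t c) : dt v w = -dt w v := by
  unfold dt; ring

theorem Gv_le {C : ℕ} {Q : ℕ} {X : ℝ} {w₁ : Qd t c} (hX : 0 < X) (hQ : 1 ≤ Q) (hC : ∀ m : ℤ,
    ((ball t c (4 * X)).filter (fun z => dt w₁ z = m)).card ≤ C) (w₂ : Qd t c) :
    Gv χ Q X w₁ w₂ ≤ 16 * Real.log (2 * Q) ^ 2 * (Q * C) := by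
  classical
  have h0 : 0 ≤ Real.log (2 * Q) := by
    apply Real.log_nonneg
    have : (1 : ℝ) ≤ Q := by exact_mod_cast hQ
    linarith
  set S : Finset ℤ := Ico (-(2 * (Q : ℤ))) (-Q) with hS
  have hSc : S.card = Q := by
    rw [hS, Int.card_Ico]; omega
  unfold Gv
  have h1 : ∀ v ∈ ball t c (4 * X), psi (nm v / X) * th χ Q (dt v w₁) * th χ Q (dt v w₂) ≤
      16 * Real.log (2 * Q) ^ 2 * (if dt w₁ v ∈ S then 1 else 0) := by
    intro v _
    have a1 : psi (nm v / X) ≤ 16 := psi_le (by positivity)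
    have a0 := psi_nonneg (nm v / X)
    have a2 := th_le χ Q (dt v w₁)
    have a3 := th_le' χ Q (dt v w₂) hQ
    have a4 := th_nonneg χ Q (dt v w₂)
    have a5 := th_nonneg χ Q (dt v w₁)
    have a6 : (dt v w₁ ∈ Ioc (Q : ℤ) (2 * Q)) ↔ dt w₁ v ∈ S := by
      rw [hS, mem_Ioc, mem_Ico, dt_anti v w₁]
      omega
    simp only [a6] at a2
    calc psi (nm v / X) * th χ Q (dt v w₁) * th χ Q (dt v w₂) ≤
        16 * (Real.log (2 * Q) * (if dt w₁ v ∈ S then 1 else 0)) * Real.log (2 * Q) := by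
          apply mul_le_mul _ a3 a4
          · apply mul_nonneg (by norm_num)
            exact a5.trans a2
          · exact mul_le_mul a1 a2 a5 (by norm_num)
      _ = _ := by ring
  refine (sum_le_sum h1).trans ?_
  rw [← mul_sum, sum_boole]
  apply mul_le_mul_of_nonneg_left _ (by positivity)
  have h2 := count_dt hC S
  rw [hSc] at h2
  exact_mod_cast h2

theorem cw_sub_cone (X s₁ s₂ : ℝ) (a b : Qd t c) : cw X s₁ s₂ a b ⊆ cone X a b := by
  unfold cw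
  exact filter_subset _ _

theorem cone_mem (hD : t ^ 2 < 4 * c) {X : ℝ} {a b z : Qd t c} (h : z ∈ cone X a b) : prim z ∧ (nm z : ℝ) ≤ X := by
  unfold cone at h
  rw [mem_filter, mem_pball hD] at h
  exact h.1

theorem cw_mem (hD : t ^ 2 < 4 * c) {X s₁ s₂ : ℝ} {a b z : Qd t c} (h : z ∈ cw X s₁ s₂ a b) :
    prim z ∧ s₁ * X < (nm z : ℝ) ∧ (nm z : ℝ) ≤ X := by
  have h1 := cone_mem hD (cw_sub_cone X s₁ s₂ a b h)
  unfold cw at h
  rw [mem_filter] at h
  exact ⟨h1.1, h.2.1, h1.2⟩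

open scoped Classical in
/-- splitting the double sum -/
theorem split3 (W : Finset (Qd t c)) (R : ℝ) (hR : 0 < R) (F : Qd t c → Qd t c → ℝ) (hF : ∀ a b, F a b = F b a) :
    ∑ w₁ ∈ W, ∑ w₂ ∈ W, F w₁ w₂ =
      2 * ∑ w₁ ∈ W, ∑ w₂ ∈ W, (if R ≤ (dt w₁ w₂ : ℝ) then F w₁ w₂ else 0) +
      ∑ w₁ ∈ W, ∑ w₂ ∈ W, (if |(dt w₁ w₂ : ℝ)| < R then F w₁ w₂ else 0) := by
  have h1 : ∑ w₁ ∈ W, ∑ w₂ ∈ W, (if R ≤ (dt w₁ w₂ : ℝ) then F w₁ w₂ else 0) =
      ∑ w₁ ∈ W, ∑ w₂ ∈ W, (if R ≤ -(dt w₁ w₂ : ℝ) then F w₁ w₂ else 0) := by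
    rw [sum_comm]
    refine sum_congr rfl fun a _ => sum_congr rfl fun b _ => ?_
    rw [dt_anti b a, hF b a]
    push_cast
    rfl
  have h2 : ∑ w₁ ∈ W, ∑ w₂ ∈ W, F w₁ w₂ =
      ∑ w₁ ∈ W, ∑ w₂ ∈ W, (if R ≤ (dt w₁ w₂ : ℝ) then F w₁ w₂ else 0) +
      ∑ w₁ ∈ W, ∑ w₂ ∈ W, (if R ≤ -(dt w₁ w₂ : ℝ) then F w₁ w₂ else 0) +
      ∑ w₁ ∈ W, ∑ w₂ ∈ W, (if |(dt w₁ w₂ : ℝ)| < R then F w₁ w₂ else 0) := by
    simp only [← sum_add_distrib]
    refine sum_congr rfl fun a _ => sum_congr rfl fun b _ => ?_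
    by_cases c1 : R ≤ (dt a b : ℝ)
    · rw [if_pos c1, if_neg (by linarith), if_neg (by
        rw [abs_of_pos (by linarith)]; linarith)]
      ring
    · rw [if_neg c1]
      by_cases c2 : R ≤ -(dt a b : ℝ)
      · rw [if_pos c2, if_neg (by
          rw [abs_of_neg (by linarith)]; linarith)]
        ring
      · rw [if_neg c2, if_pos (abs_lt.2 ⟨by linarith, by linarith⟩)]
        ring
  rw [h2, ← h1]
  ring


theorem ev_log (A : ℝ) : ∀ᶠ Q : ℕ in atTop, A ≤ Real.log Q ∧ Real.log Q ^ 3 ≤ (Q : ℝ) ∧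
    1 ≤ Real.log Q ∧ 3 ≤ Q := by
  have h1 : Tendsto (fun Q : ℕ => Real.log (Q : ℝ)) atTop atTop :=
    Real.tendsto_log_atTop.comp tendsto_natCast_atTop_atTop
  have h2 : ∀ᶠ x : ℝ in atTop, Real.log x ^ 3 ≤ x := by
    have h := (Real.isLittleO_pow_log_id_atTop (n := 3)).bound (c := 1) (by norm_num)
    filter_upwards [h, eventually_ge_atTop (1 : ℝ)] with x hx hx1
    rw [Real.norm_eq_abs, one_mul, Real.norm_eq_abs, id, abs_of_nonneg (by linarith : (0:ℝ) ≤ x)] at hx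
    exact (le_abs_self _).trans hx
  filter_upwards [h1.eventually_ge_atTop A, h1.eventually_ge_atTop 1,
    tendsto_natCast_atTop_atTop.eventually h2, eventually_ge_atTop 3] with Q a1 a2 a3 a4
  exact ⟨a1, a3, a2, a4⟩


theorem absAA {A : Qd t c → ℝ} (hA : ∀ z, |A z| ≤ 1) (a b : Qd t c) : |A a * A b| ≤ 1 := by
  rw [abs_mul]
  exact mul_le_one₀ (hA a) (abs_nonneg _) (hA b)

theorem sq_expandA (χ : DirichletCharacter ℂ f) (A : Qd t c → ℝ) (Q : ℕ) (X : ℝ) (W : Finset (Qd t c)) :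
    ∑ v ∈ ball t c (4 * X), psi (nm v / X) * (∑ w ∈ W, A w * th χ Q (dt v w)) ^ 2 =
      ∑ w₁ ∈ W, ∑ w₂ ∈ W, A w₁ * A w₂ * Gv χ Q X w₁ w₂ := by
  unfold Gv
  simp only [mul_sum]
  rw [sum_congr rfl (fun w₁ _ => sum_comm), sum_comm]
  refine sum_congr rfl fun v _ => ?_
  rw [sq, sum_mul_sum, mul_sum]
  refine sum_congr rfl fun w₁ _ => ?_
  rw [mul_sum]
  exact sum_congr rfl fun w₂ _ => by ring

open scoped Classical in
/-- the pairs of small determinant -/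
theorem small_partA (χ : DirichletCharacter ℂ f) (hD : t ^ 2 < 4 * c) {A : Qd t c → ℝ} (hA : ∀ z, |A z| ≤ 1) {C : ℕ} {Q : ℕ} {X s₁ s₂ R : ℝ} (hX : 0 < X) (hQ : 1 ≤ Q) (hR : 1 ≤ R)
    (hC : ∀ (w : Qd t c) (m : ℤ), prim w → s₁ * X < (nm w : ℝ) →
      ((ball t c (4 * X)).filter (fun z => dt w z = m)).card ≤ C) (a b : Qd t c) :
    |∑ w₁ ∈ cw X s₁ s₂ a b, ∑ w₂ ∈ cw X s₁ s₂ a b,
      (if |(dt w₁ w₂ : ℝ)| < R then A w₁ * A w₂ * Gv χ Q X w₁ w₂ else 0)| ≤
      ((cone X a b).card : ℝ) * (48 * (C : ℝ) ^ 2 * R * Q * Real.log (2 * Q) ^ 2) := by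
  have h0 : 0 ≤ Real.log (2 * Q) := by
    apply Real.log_nonneg
    have : (1 : ℝ) ≤ Q := by exact_mod_cast hQ
    linarith
  have hin : ∀ w₁ ∈ cw X s₁ s₂ a b, |∑ w₂ ∈ cw X s₁ s₂ a b,
      (if |(dt w₁ w₂ : ℝ)| < R then A w₁ * A w₂ * Gv χ Q X w₁ w₂ else 0)| ≤
      48 * (C : ℝ) ^ 2 * R * Q * Real.log (2 * Q) ^ 2 := by
    intro w₁ hw₁
    obtain ⟨p1, p2, p3⟩ := cw_mem hD hw₁
    have hCw := fun m => hC w₁ m p1 p2
    set S : Finset ℤ := Icc (-(⌊R⌋₊ : ℤ)) ⌊R⌋₊ with hS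
    have hSc : S.card = 2 * ⌊R⌋₊ + 1 := by
      rw [hS, Int.card_Icc]; omega
    refine (abs_sum_le_sum_abs _ _).trans ?_
    have h1 : ∀ w₂ ∈ cw X s₁ s₂ a b,
        |(if |(dt w₁ w₂ : ℝ)| < R then A w₁ * A w₂ * Gv χ Q X w₁ w₂ else 0)| ≤
        16 * Real.log (2 * Q) ^ 2 * (Q * C) * (if dt w₁ w₂ ∈ S then 1 else 0) := by
      intro w₂ _
      by_cases c1 : |(dt w₁ w₂ : ℝ)| < R
      · have c2 : dt w₁ w₂ ∈ S := by
          rw [hS, mem_Icc, ← abs_le]
          have h3 : ((|dt w₁ w₂| : ℤ) : ℝ) < R := by push_cast; exact c1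
          have h4 : (dt w₁ w₂).natAbs ≤ ⌊R⌋₊ := by
            apply Nat.le_floor
            have h5 : (((dt w₁ w₂).natAbs : ℕ) : ℝ) = |(dt w₁ w₂ : ℝ)| := by
              rw [Nat.cast_natAbs]; simp
            rw [h5]; exact c1.le
          rw [Int.abs_eq_natAbs]
          exact_mod_cast h4
        rw [if_pos c1, if_pos c2, mul_one, abs_mul, abs_of_nonneg (Gv_nonneg _ _ _ _ _)]
        exact (mul_le_of_le_one_left (Gv_nonneg _ _ _ _ _) (absAA hA _ _)).trans (Gv_le hX hQ hCw w₂)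
      · rw [if_neg c1, abs_zero]
        split_ifs <;> positivity
    refine (sum_le_sum h1).trans ?_
    rw [← mul_sum, sum_boole]
    have h2 : ((cw X s₁ s₂ a b).filter (fun z => dt w₁ z ∈ S)).card ≤
        ((ball t c (4 * X)).filter (fun z => dt w₁ z ∈ S)).card := by
      apply card_le_card
      intro z hz
      rw [mem_filter] at hz ⊢
      refine ⟨?_, hz.2⟩
      obtain ⟨q1, q2, q3⟩ := cw_mem hD hz.1
      rw [mem_ball hD]
      exact ⟨(one_le_nm hD).2 (prim_ne_zero q1), by linarith⟩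
    have h3 := h2.trans (count_dt hCw S)
    rw [hSc] at h3
    have h4 : (((cw X s₁ s₂ a b).filter (fun z => dt w₁ z ∈ S)).card : ℝ) ≤
        (2 * (⌊R⌋₊ : ℝ) + 1) * C := by exact_mod_cast h3
    have h5 : (⌊R⌋₊ : ℝ) ≤ R := Nat.floor_le (by linarith)
    have h6 : (2 * (⌊R⌋₊ : ℝ) + 1) * C ≤ 3 * R * C :=
      mul_le_mul_of_nonneg_right (by linarith) (Nat.cast_nonneg _)
    calc 16 * Real.log (2 * Q) ^ 2 * (Q * C) *
          (((cw X s₁ s₂ a b).filter (fun z => dt w₁ z ∈ S)).card : ℝ)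
        ≤ 16 * Real.log (2 * Q) ^ 2 * (Q * C) * (3 * R * C) :=
          mul_le_mul_of_nonneg_left (h4.trans h6) (by positivity)
      _ = _ := by ring
  refine (abs_sum_le_sum_abs _ _).trans ((sum_le_sum hin).trans ?_)
  rw [sum_const, nsmul_eq_mul]
  apply mul_le_mul_of_nonneg_right _ (by positivity)
  exact_mod_cast card_le_card (cw_sub_cone X s₁ s₂ a b)

theorem btx (hF : Fd t c f χ) (h1 : S_GG0 t c χ) (h3 : S_LN t c) (h4 : S_DTB t c f) :
    S_BTX t c χ := by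
  classical
  have hD := hDf hF
  have hf3 : (3 : ℝ) ≤ f := by exact_mod_cast hF.three
  intro A hA h2 K κ s s₁ s₂ ε hK hκ hs hs₁ hs₁₂ hs₂ hε
  set C₁ : ℝ := 64 * (1 / κ + 1) with hC₁
  have hC₁0 : 0 < C₁ := by positivity
  set η : ℝ := ε / C₁ with hη
  have hη0 : 0 < η := by positivity
  set δ : ℝ := ε * η with hδ
  have hδ0 : 0 < δ := by positivity
  obtain ⟨C, hC⟩ := h3 s₁ hs₁
  obtain ⟨Q₁, hQ₁⟩ := h1 K κ s₁ (δ / 16) hK hκ hs₁ (by positivity)
  obtain ⟨Q₂, hQ₂⟩ := h2 K κ s₁ s₂ δ hK hκ hs₁ hs₁₂ hs₂ hδ0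
  obtain ⟨Q₃, hQ₃⟩ := eventually_atTop.1 (ev_log (192 * C₁ * C ^ 2 / δ))
  refine ⟨max Q₁ (max Q₂ Q₃), fun Q hQ => ?_⟩
  have hQa : Q₁ ≤ Q := (le_max_left _ _).trans hQ
  have hQb : Q₂ ≤ Q := ((le_max_left _ _).trans (le_max_right _ _)).trans hQ
  have hQc : Q₃ ≤ Q := ((le_max_right _ _).trans (le_max_right _ _)).trans hQ
  obtain ⟨l1, l2, l3, l4⟩ := hQ₃ Q hQc
  obtain ⟨X₀, hX₀⟩ := hQ₂ Q hQb
  refine ⟨max X₀ (f * (K * Q : ℝ)), fun X hX α hα _ => ?_⟩
  have hXa : X₀ ≤ X := (le_max_left _ _).trans hX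
  have hXb : f * (K * Q : ℝ) ≤ X := (le_max_right _ _).trans hX
  have hQ1 : 1 ≤ Q := by omega
  have hQR : (1 : ℝ) ≤ Q := by exact_mod_cast hQ1
  have hKR : (1 : ℝ) ≤ K := by exact_mod_cast hK
  have hKQ1 : (1 : ℝ) ≤ K * Q := one_le_mul_of_one_le_of_one_le hKR hQR
  have hX1 : 1 ≤ X := by nlinarith
  have hX0 : 0 < X := by linarith
  have hQ0 : (0 : ℝ) < Q := by linarith
  have hl0 : 0 < Real.log Q := by linarith
  set R : ℝ := (Q : ℝ) / Real.log Q ^ 3 with hR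
  have hR1 : 1 ≤ R := by
    rw [hR, le_div_iff₀ (by positivity), one_mul]; exact l2
  have hR0 : 0 < R := by linarith
  have hcone := cone_total hF h4 hK hκ hQ1 hXb
  rw [← hC₁] at hcone
  have hgood := good_card hF (κ := κ) hK hQ1 hXb
  -- the second moment
  set SS : Qd t c × Qd t c → Qd t c → ℝ := fun e v => ∑ w ∈ cw X s₁ s₂ e.1 e.2, A w * th χ Q (dt v w)
    with hSS
  have hsec : ∑ e ∈ good t c K κ Q X, ∑ v ∈ cone X e.1 e.2, SS e v ^ 2 ≤ δ * X * (Q : ℝ) ^ 2 := by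
    set F : Qd t c → Qd t c → ℝ := fun a b => A a * A b * Gv χ Q X a b with hF
    have hFs : ∀ a b, F a b = F b a := by
      intro a b
      rw [hF]
      simp only
      rw [Gv_symm]
      ring
    have e1 : ∀ e ∈ good t c K κ Q X, 9 * ∑ v ∈ cone X e.1 e.2, SS e v ^ 2 ≤
        ∑ w₁ ∈ cw X s₁ s₂ e.1 e.2, ∑ w₂ ∈ cw X s₁ s₂ e.1 e.2, F w₁ w₂ := by
      intro e _
      rw [hF, ← sq_expandA, mul_sum]
      have hsub : cone X e.1 e.2 ⊆ ball t c (4 * X) := by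
        intro z hz
        obtain ⟨q1, q3⟩ := cone_mem hD hz
        rw [mem_ball hD]
        exact ⟨(one_le_nm hD).2 (prim_ne_zero q1), by linarith⟩
      refine le_trans (sum_le_sum fun v hv => ?_) (sum_le_sum_of_subset_of_nonneg hsub
        fun v _ _ => mul_nonneg (psi_nonneg _) (sq_nonneg _))
      apply mul_le_mul_of_nonneg_right _ (sq_nonneg _)
      apply psi_ge
      rw [div_le_one hX0]
      exact (cone_mem hD hv).2
    set B : Qd t c × Qd t c → ℝ := fun e => ∑ w₁ ∈ cw X s₁ s₂ e.1 e.2, ∑ w₂ ∈ cw X s₁ s₂ e.1 e.2,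
      (if R ≤ (dt w₁ w₂ : ℝ) then F w₁ w₂ else 0) with hB
    set B0 : Qd t c × Qd t c → ℝ := fun e => ∑ w₁ ∈ cw X s₁ s₂ e.1 e.2, ∑ w₂ ∈ cw X s₁ s₂ e.1 e.2,
      (if R ≤ (dt w₁ w₂ : ℝ) then A w₁ * A w₂ * G0 χ Q X w₁ w₂ else 0) with hB0
    set Sm : Qd t c × Qd t c → ℝ := fun e => ∑ w₁ ∈ cw X s₁ s₂ e.1 e.2, ∑ w₂ ∈ cw X s₁ s₂ e.1 e.2,
      (if |(dt w₁ w₂ : ℝ)| < R then F w₁ w₂ else 0) with hSm
    have e2 : ∀ e ∈ good t c K κ Q X, 9 * ∑ v ∈ cone X e.1 e.2, SS e v ^ 2 ≤ 2 * B e + Sm e := by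
      intro e he
      refine (e1 e he).trans (le_of_eq ?_)
      rw [split3 _ R hR0 F hFs]
    have e3 : ∀ e ∈ good t c K κ Q X, B e ≤ B0 e + δ / 16 * (Q : ℝ) ^ 3 := by
      intro e he
      have g1 := hQ₁ Q hQa X hXb e he
      rw [← hR] at g1
      have g2 : B e - B0 e ≤ ∑ w₁ ∈ cw X s₁ 1 e.1 e.2, ∑ w₂ ∈ cw X s₁ 1 e.1 e.2,
          (if R ≤ (dt w₁ w₂ : ℝ) then |Gv χ Q X w₁ w₂ - G0 χ Q X w₁ w₂| else 0) := by
        rw [hB, hB0]
        simp only [← sum_sub_distrib]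
        have hsub : cw X s₁ s₂ e.1 e.2 ⊆ cw X s₁ 1 e.1 e.2 := by
          intro z hz
          unfold cw at hz ⊢
          rw [mem_filter] at hz ⊢
          refine ⟨hz.1, hz.2.1, hz.2.2.trans ?_⟩
          exact mul_le_mul_of_nonneg_right hs₂ hX0.le
        have nn : ∀ a b : Qd t c, 0 ≤ (if R ≤ (dt a b : ℝ) then |Gv χ Q X a b - G0 χ Q X a b| else 0) := by
          intro a b
          split_ifs
          · exact abs_nonneg _
          · exact le_rfl
        refine le_trans (sum_le_sum fun a _ => ?_) (sum_le_sum_of_subset_of_nonneg hsub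
          fun a _ _ => sum_nonneg fun b _ => nn a b)
        refine le_trans (sum_le_sum fun b _ => ?_) (sum_le_sum_of_subset_of_nonneg hsub
          fun b _ _ => nn a b)
        split_ifs
        · rw [hF]
          simp only
          rw [← mul_sub]
          refine (le_abs_self _).trans ?_
          rw [abs_mul]
          exact mul_le_of_le_one_left (abs_nonneg _) (absAA hA _ _)
        · rw [sub_zero]
      linarith
    have e4 : ∑ e ∈ good t c K κ Q X, B0 e ≤ δ * X * (Q : ℝ) ^ 2 :=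
      (le_abs_self _).trans (hX₀ X hXa)
    have e5 : ∀ e ∈ good t c K κ Q X, Sm e ≤ ((cone X e.1 e.2).card : ℝ) *
        (48 * (C : ℝ) ^ 2 * R * Q * Real.log (2 * Q) ^ 2) := by
      intro e _
      refine (le_abs_self _).trans ?_
      exact small_partA χ hD hA hX0 hQ1 hR1 (fun w m hw hn => hC X w m hX1 hw hn) e.1 e.2
    have e6 : 9 * ∑ e ∈ good t c K κ Q X, ∑ v ∈ cone X e.1 e.2, SS e v ^ 2 ≤
        2 * (∑ e ∈ good t c K κ Q X, B e) + ∑ e ∈ good t c K κ Q X, Sm e := by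
      rw [mul_sum, mul_sum, ← sum_add_distrib]
      exact sum_le_sum e2
    have e7 : ∑ e ∈ good t c K κ Q X, B e ≤ 2 * (δ * X * (Q : ℝ) ^ 2) := by
      refine (sum_le_sum e3).trans ?_
      rw [sum_add_distrib, sum_const, nsmul_eq_mul]
      have g1 : ((good t c K κ Q X).card : ℝ) * (δ / 16 * (Q : ℝ) ^ 3) ≤
          16 * (X / (K * Q)) * (δ / 16 * (Q : ℝ) ^ 3) :=
        mul_le_mul_of_nonneg_right hgood (by positivity)
      have g2 : 16 * (X / (K * Q)) * (δ / 16 * (Q : ℝ) ^ 3) = (δ * X * (Q : ℝ) ^ 2) / K := by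
        field_simp
      have g3 : (δ * X * (Q : ℝ) ^ 2) / K ≤ δ * X * (Q : ℝ) ^ 2 := div_le_self (by positivity) hKR
      linarith
    have e8 : ∑ e ∈ good t c K κ Q X, Sm e ≤ δ * X * (Q : ℝ) ^ 2 := by
      refine (sum_le_sum e5).trans ?_
      rw [← sum_mul]
      have g0 : Real.log (2 * Q) ≤ 2 * Real.log Q := by
        rw [Real.log_mul (by norm_num) (by positivity)]
        have : Real.log 2 ≤ Real.log Q := by
          apply Real.log_le_log (by norm_num)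
          have : (3 : ℝ) ≤ Q := by exact_mod_cast l4
          linarith
        linarith
      have g00 : 0 ≤ Real.log (2 * Q) := Real.log_nonneg (by linarith)
      have g1 : Real.log (2 * Q) ^ 2 ≤ 4 * Real.log Q ^ 2 := by nlinarith
      have g2 : 48 * (C : ℝ) ^ 2 * R * Q * Real.log (2 * Q) ^ 2 ≤
          48 * (C : ℝ) ^ 2 * R * Q * (4 * Real.log Q ^ 2) :=
        mul_le_mul_of_nonneg_left g1 (by positivity)
      have g3 : 48 * (C : ℝ) ^ 2 * R * Q * (4 * Real.log Q ^ 2) =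
          192 * (C : ℝ) ^ 2 * (Q : ℝ) ^ 2 / Real.log Q := by
        rw [hR]
        field_simp
        ring
      have g4 : 0 ≤ 192 * (C : ℝ) ^ 2 * (Q : ℝ) ^ 2 / Real.log Q := by positivity
      calc (∑ e ∈ good t c K κ Q X, ((cone X e.1 e.2).card : ℝ)) *
            (48 * (C : ℝ) ^ 2 * R * Q * Real.log (2 * Q) ^ 2)
          ≤ (C₁ * X) * (192 * (C : ℝ) ^ 2 * (Q : ℝ) ^ 2 / Real.log Q) := by
            apply mul_le_mul hcone (g2.trans_eq g3) (by positivity) (by positivity)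
        _ = (192 * C₁ * (C : ℝ) ^ 2 / Real.log Q) * (X * (Q : ℝ) ^ 2) := by ring
        _ ≤ δ * (X * (Q : ℝ) ^ 2) := by
            apply mul_le_mul_of_nonneg_right _ (by positivity)
            rw [div_le_iff₀ hl0]
            rw [div_le_iff₀ hδ0] at l1
            linarith
        _ = _ := by ring
    have hpos : 0 ≤ δ * X * (Q : ℝ) ^ 2 := by positivity
    linarith
  -- the final step
  have hmain : |∑ e ∈ good t c K κ Q X, ∑ v ∈ cone X e.1 e.2, ∑ w ∈ cw X s₁ s₂ e.1 e.2,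
      α v * A w * th χ Q (dt v w)| ≤
      ∑ e ∈ good t c K κ Q X, ∑ v ∈ cone X e.1 e.2, (η * Q / 2 + SS e v ^ 2 / (2 * (η * Q))) := by
    refine (abs_sum_le_sum_abs _ _).trans (sum_le_sum fun e _ => ?_)
    refine (abs_sum_le_sum_abs _ _).trans (sum_le_sum fun v _ => ?_)
    have a1 : ∑ w ∈ cw X s₁ s₂ e.1 e.2, α v * A w * th χ Q (dt v w) = α v * SS e v := by
      rw [hSS]
      simp only
      rw [mul_sum]
      exact sum_congr rfl fun w _ => by ring
    rw [a1, abs_mul]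
    have a2 : |α v| * |SS e v| ≤ |SS e v| := by
      calc |α v| * |SS e v| ≤ 1 * |SS e v| :=
            mul_le_mul_of_nonneg_right (hα v) (abs_nonneg _)
        _ = _ := one_mul _
    refine a2.trans ?_
    have hp : 0 < η * Q := by positivity
    have a3 : SS e v ^ 2 = |SS e v| ^ 2 := (sq_abs _).symm
    rw [a3]
    have a4 : 0 ≤ (|SS e v| - η * Q) ^ 2 / (2 * (η * Q)) := by positivity
    have a5 : (|SS e v| - η * Q) ^ 2 / (2 * (η * Q)) =
        η * Q / 2 + |SS e v| ^ 2 / (2 * (η * Q)) - |SS e v| := by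
      field_simp
      ring
    linarith
  refine hmain.trans ?_
  have b1 : ∑ e ∈ good t c K κ Q X, ∑ v ∈ cone X e.1 e.2, (η * Q / 2 + SS e v ^ 2 / (2 * (η * Q))) =
      (η * Q / 2) * ∑ e ∈ good t c K κ Q X, ((cone X e.1 e.2).card : ℝ) +
      1 / (2 * (η * Q)) * ∑ e ∈ good t c K κ Q X, ∑ v ∈ cone X e.1 e.2, SS e v ^ 2 := by
    rw [mul_sum, mul_sum, ← sum_add_distrib]
    refine sum_congr rfl fun e _ => ?_
    rw [sum_add_distrib, sum_const, nsmul_eq_mul, mul_sum]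
    congr 1
    · ring
    · exact sum_congr rfl fun v _ => by ring
  rw [b1]
  have b2 : (η * Q / 2) * ∑ e ∈ good t c K κ Q X, ((cone X e.1 e.2).card : ℝ) ≤
      (η * Q / 2) * (C₁ * X) := mul_le_mul_of_nonneg_left hcone (by positivity)
  have b3 : 1 / (2 * (η * Q)) * ∑ e ∈ good t c K κ Q X, ∑ v ∈ cone X e.1 e.2, SS e v ^ 2 ≤
      1 / (2 * (η * Q)) * (δ * X * (Q : ℝ) ^ 2) := mul_le_mul_of_nonneg_left hsec (by positivity)
  have b4 : (η * Q / 2) * (C₁ * X) = ε * X * Q / 2 := by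
    rw [hη]; field_simp
  have b5 : 1 / (2 * (η * Q)) * (δ * X * (Q : ℝ) ^ 2) = ε * X * Q / 2 := by
    rw [hδ]; field_simp
  linarith

end Pool.Agent.W179.EG
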